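import Pool.Agent.N71.PS.TE
import Pool.Agent.N71.PS.TA
import Pool.Agent.N71.PS.DStubs

/-!
# Admissible residues (D_SA)
-/

set_option autoImplicit false
set_option linter.unusedSectionVars false

namespace Pool.Agent.N71.PS.SA

open Finset Filter NumberField Pool.Agent.H38R2.CG Pool.Agent.H38R2.CG2
open scoped Classical

/-- Jacobi symbols modulo a product of primes -/
theorem jac_prod (n : ℤ) (T : Finset ℕ) (hT : ∀ l ∈ T, l ≠ 0) :
    jacobiSym n (∏ l ∈ T, l) = ∏ l ∈ T, jacobiSym n l := by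
  induction T using Finset.induction_on with
  | empty => simp
  | insert a s ha ih =>
    rw [Finset.prod_insert ha, Finset.prod_insert ha]
    have h1 : a ≠ 0 := hT a (Finset.mem_insert_self _ _)
    have h2 : ∏ l ∈ s, l ≠ 0 :=
      Finset.prod_ne_zero_iff.2 fun l hl => hT l (Finset.mem_insert_of_mem hl)
    have i1 : NeZero a := ⟨h1⟩
    have i2 : NeZero (∏ l ∈ s, l) := ⟨h2⟩
    rw [jacobiSym.mul_right, ih fun l hl => hT l (Finset.mem_insert_of_mem hl)]

/-- odd primes up to `z` -/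
noncomputable def OP (z : ℕ) : Finset ℕ := (Finset.Icc 3 z).filter Nat.Prime

/-- the odd primes up to `z` dividing `r` -/
noncomputable def LL (z r : ℕ) : Finset ℕ := (OP z).filter (fun l => l ∣ r)

/-- the constant factor -/
noncomputable def Cr (z r : ℕ) : ℝ :=
  ∏ l ∈ (OP z).filter (fun l => ¬ l ∣ r), (1 - (jacobiSym (r : ℤ) l : ℝ) / l)

theorem mem_OP {z l : ℕ} : l ∈ OP z ↔ (3 ≤ l ∧ l ≤ z) ∧ l.Prime := by
  unfold OP
  rw [Finset.mem_filter, Finset.mem_Icc]

theorem AN_expand (z r n : ℕ) : AN z r n =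
    al2 r n * (Cr z r * ∑ T ∈ (LL z r).powerset, (jacobiSym (n : ℤ) (∏ l ∈ T, l) : ℝ)) := by
  unfold AN
  congr 1
  change ∏ l ∈ OP z, al l r n = _
  rw [← Finset.prod_filter_mul_prod_filter_not (OP z) (fun l => ¬ l ∣ r)]
  congr 1
  · unfold Cr
    refine Finset.prod_congr rfl fun l hl => ?_
    rw [Finset.mem_filter] at hl
    unfold al
    rw [if_neg hl.2]
  · have e1 : (OP z).filter (fun l => ¬ ¬ l ∣ r) = LL z r := by
      unfold LL
      refine Finset.filter_congr fun l _ => ?_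
      rw [not_not]
    rw [e1]
    have e2 : ∏ l ∈ LL z r, al l r n = ∏ l ∈ LL z r, (1 + (jacobiSym (n : ℤ) l : ℝ)) := by
      refine Finset.prod_congr rfl fun l hl => ?_
      unfold LL at hl
      rw [Finset.mem_filter] at hl
      unfold al
      rw [if_pos hl.2]
    rw [e2, Finset.prod_one_add]
    refine Finset.sum_congr rfl fun T hT => ?_
    rw [Finset.mem_powerset] at hT
    rw [jac_prod]
    · push_cast
      rfl
    · intro l hl
      have := hT hl
      unfold LL at this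
      rw [Finset.mem_filter, mem_OP] at this
      exact this.1.2.ne_zero

theorem PiR_eq {z r : ℕ} (hz : 2 ≤ z) : PiR z r = (1 - (chi r 2 : ℝ) / 2) * Cr z r := by
  unfold PiR
  have e1 : (Finset.Icc 2 z).filter Nat.Prime = insert 2 (OP z) := by
    ext l
    rw [Finset.mem_insert, mem_OP, Finset.mem_filter, Finset.mem_Icc]
    constructor
    · rintro ⟨⟨h1, h2⟩, h3⟩
      rcases eq_or_ne l 2 with h | h
      · exact Or.inl h
      · exact Or.inr ⟨⟨by omega, h2⟩, h3⟩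
    · rintro (h | ⟨⟨h1, h2⟩, h3⟩)
      · subst h
        exact ⟨⟨le_rfl, hz⟩, Nat.prime_two⟩
      · exact ⟨⟨by omega, h2⟩, h3⟩
  have h2 : (2 : ℕ) ∉ OP z := by
    rw [mem_OP]
    rintro ⟨⟨h, _⟩, _⟩
    omega
  rw [e1, Finset.prod_insert h2]
  congr 1
  rw [← Finset.prod_filter_mul_prod_filter_not (OP z) (fun l => ¬ l ∣ r)]
  have hchi : ∀ l ∈ OP z, chi r l = jacobiSym (r : ℤ) l := by
    intro l hl
    rw [mem_OP] at hl
    have h3 : ¬ 2 ∣ l := by
      intro h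
      have := (Nat.prime_dvd_prime_iff_eq Nat.prime_two hl.2).1 h
      omega
    unfold chi
    rw [padicValNat.eq_zero_of_not_dvd h3]
    simp
  have h4 : ∏ l ∈ (OP z).filter (fun l => ¬ ¬ l ∣ r), (1 - (chi r l : ℝ) / l) = 1 := by
    refine Finset.prod_eq_one fun l hl => ?_
    rw [Finset.mem_filter, not_not] at hl
    rw [hchi l hl.1]
    have h5 := (mem_OP.1 hl.1).2
    have h6 : jacobiSym (r : ℤ) l = 0 := by
      rw [jacobiSym.eq_zero_iff]
      refine ⟨h5.ne_zero, ?_⟩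
      rw [Int.gcd_natCast_natCast, Nat.gcd_eq_right hl.2]
      exact h5.ne_one
    rw [h6]
    simp
  rw [h4, mul_one]
  unfold Cr
  refine Finset.prod_congr rfl fun l hl => ?_
  rw [Finset.mem_filter] at hl
  rw [hchi l hl.1]

variable [PSet]

/-- the sums with a character -/
noncomputable def EP (a : ℝ) (X : ℕ) (l t : ℝ) (ψ : DirichletCharacter ℂ 8) (f : ℕ) : ℂ :=
  ∑ s ∈ SA a X, ∑ t' ∈ SA a X, ψ ((prodS s * prodS t' : ℕ) : ZMod 8) *
    ((jacobiSym ((prodS s * prodS t' : ℕ) : ℤ) f : ℤ) : ℂ) *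
    ((fej (l * (Real.log (prodS s * prodS t' : ℕ) - t)) : ℝ) : ℂ)

theorem pair_bound (hFS : P2_FS) (hNBAD : D_NBAD) {a : ℝ} (ha : 2 < a)
    {ψ : DirichletCharacter ℂ 8} {f : ℕ} (hfs : Squarefree f) (hfc : f.Coprime (2 * 8))
    (hβ : ∃ β : ℝ, β < 1 ∧ ∃ y0 : ℕ, ∀ y ≥ y0,
      ‖∑ p ∈ PP y, ψ (p : ZMod 8) * ((jacobiSym (p : ℤ) f : ℤ) : ℂ)‖ ≤ β * (PP y).card)
    {l ε : ℝ} (hl : 0 < l) (hε : 0 < ε) : ∃ X0 : ℕ, ∀ X ≥ X0, ∀ t : ℝ,
      ‖EP a X l t ψ f‖ ≤ ε * (NA a X ^ 2 / Real.log X) := by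
  obtain ⟨β, hβ1, y0, hy0⟩ := hβ
  obtain ⟨X1, h1⟩ := hNBAD β hβ1 a ha 8 (by norm_num) 0 0 l ε hl hε
  obtain ⟨X2, h2⟩ := TEh.large_y ha y0
  refine ⟨max X1 X2, fun X hX t => ?_⟩
  have hX1 : X1 ≤ X := (le_max_left _ _).trans hX
  have hX2 : X2 ≤ X := (le_max_right _ _).trans hX
  obtain ⟨b, hb0, hb, hbb⟩ := h1 X hX1 (kA a X) (Nat.sub_le _ _) le_rfl
  have h3 := hbb ψ f hfs hfc (hy0 _ (h2 X hX2))
  have h4 := hFS (Finset ℕ) ((PA a X).powersetCard (kA a X))
    (fun s => ψ (prodS s : ZMod 8) * ((jacobiSym (prodS s : ℤ) f : ℤ) : ℂ))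
    (fun s => Real.log (prodS s)) l t b hl hb0 h3
  have h5 : EP a X l t ψ f = ∑ i ∈ (PA a X).powersetCard (kA a X),
      ∑ j ∈ (PA a X).powersetCard (kA a X),
      ψ (prodS i : ZMod 8) * ((jacobiSym (prodS i : ℤ) f : ℤ) : ℂ) *
      (ψ (prodS j : ZMod 8) * ((jacobiSym (prodS j : ℤ) f : ℤ) : ℂ)) *
      ((fej (l * (Real.log (prodS i) + Real.log (prodS j) - t)) : ℝ) : ℂ) := by
    unfold EP SA
    refine Finset.sum_congr rfl fun s hs => Finset.sum_congr rfl fun t' ht => ?_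
    rw [TEh.log_prod hs ht, Nat.cast_mul, map_mul, Nat.cast_mul, jacobiSym.mul_left]
    push_cast
    ring
  rw [h5]
  refine h4.trans ?_
  rw [pow_zero, mul_one] at hb
  refine hb.trans (le_of_eq ?_)
  change ε / Real.log X * NA a X ^ 2 = _
  ring

theorem prodS_odd {a : ℝ} {z X : ℕ} (hz : 2 ≤ z) (hy : z ≤ yA a X) {s t' : Finset ℕ}
    (hs : s ∈ SA a X) (ht : t' ∈ SA a X) : ¬ 2 ∣ prodS s * prodS t' := by
  intro h
  have h1 := Nat.Coprime.mul_left (TAh.prodS_coprime hz hy hs) (TAh.prodS_coprime hz hy ht)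
  have h2 := Nat.dvd_gcd h (TEh.two_dvd_Qz z)
  rw [h1] at h2
  omega

/-- the sum for the trivial character -/
theorem EP_one {a : ℝ} {z X : ℕ} (hz : 2 ≤ z) (hy : z ≤ yA a X) (l t : ℝ) :
    EP a X l t 1 1 = ((SF a X (kA a X) ∅ l t : ℝ) : ℂ) := by
  unfold EP SF
  push_cast
  refine Finset.sum_congr rfl fun s hs => Finset.sum_congr rfl fun t' ht => ?_
  have h1 := prodS_odd hz hy hs ht
  have h2 : IsUnit ((prodS s * prodS t' : ℕ) : ZMod 8) := by
    rw [ZMod.isUnit_iff_coprime]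
    have : (prodS s * prodS t').Coprime 2 :=
      ((Nat.Prime.coprime_iff_not_dvd Nat.prime_two).2 h1).symm
    exact Nat.Coprime.pow_right 3 this
  have h3 : (1 : DirichletCharacter ℂ 8) ((prodS s * prodS t' : ℕ) : ZMod 8) = 1 :=
    MulChar.one_apply h2
  have e : prodS (∅ : Finset ℕ) ^ 2 * (prodS s * prodS t') = prodS s * prodS t' := by
    unfold prodS; simp
  push_cast at h3
  rw [h3]
  simp [prodS]

/-- the general case -/
theorem main (hFJ : P2_FJ) (hFS : P2_FS) (hNBAD : D_NBAD) {a : ℝ} (ha : 2 < a) {z r : ℕ}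
    (hz : 2 ≤ z) (hA : Adm z r) (Ψ : Finset (DirichletCharacter ℂ 8))
    (c : DirichletCharacter ℂ 8 → ℝ) (h1 : 1 ∈ Ψ)
    (hc : ∀ n : ℕ, ¬ 2 ∣ n → ((al2 r n : ℝ) : ℂ) = ∑ ψ ∈ Ψ, (c ψ : ℂ) * ψ (n : ZMod 8))
    (hc1 : c 1 = 2 * (1 - (chi r 2 : ℝ) / 2))
    (hΨ : ∀ ψ ∈ Ψ, (¬ 2 ∣ r → ψ = 1) ∧ (r % 16 = 12 → ψ 5 = 1) ∧
      (r % 16 = 8 → ψ = 1 ∨ ψ 5 ≠ 1)) : SANB a z r := by
  obtain ⟨_, hfej, _, _, _⟩ := hFJ
  intro l ε hl hε
  set A : ℝ := ∑ x ∈ Ψ ×ˢ (LL z r).powerset, |Cr z r * c x.1| with hA'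
  have hA0 : 0 ≤ A := Finset.sum_nonneg fun _ _ => abs_nonneg _
  set ε' : ℝ := ε / (A + 1) with hε'
  have hε'0 : 0 < ε' := by positivity
  -- the pairs
  have hpair : ∀ x : DirichletCharacter ℂ 8 × Finset ℕ, ∃ X0 : ℕ,
      x ∈ Ψ ×ˢ (LL z r).powerset → x ≠ (1, ∅) → ∀ X ≥ X0, ∀ t : ℝ,
      ‖EP a X l t x.1 (∏ l ∈ x.2, l)‖ ≤ ε' * (NA a X ^ 2 / Real.log X) := by
    intro x
    by_cases hx : x ∈ Ψ ×ˢ (LL z r).powerset ∧ x ≠ (1, ∅)
    · obtain ⟨hx1, hx2⟩ := hx
      rw [Finset.mem_product, Finset.mem_powerset] at hx1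
      have hT : ∀ l ∈ x.2, (3 ≤ l ∧ l ≤ z) ∧ l.Prime ∧ l ∣ r := by
        intro l hl
        have := hx1.2 hl
        unfold LL at this
        rw [Finset.mem_filter, mem_OP] at this
        exact ⟨this.1.1, this.1.2, this.2⟩
      have hfs : Squarefree (∏ l ∈ x.2, l) := by
        refine Finset.squarefree_prod_of_pairwise_isCoprime (fun p hp q hq hpq ↦ ?_)
          fun p hp ↦ (hT p hp).2.1.squarefree
        simp only [Function.onFun, ← Nat.coprime_iff_isRelPrime]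
        exact (Nat.coprime_primes (hT p hp).2.1 (hT q hq).2.1).mpr hpq
      have hfc : (∏ l ∈ x.2, l).Coprime (2 * 8) := by
        refine Nat.Coprime.prod_left fun l hl => ?_
        obtain ⟨⟨h3, _⟩, hp, _⟩ := hT l hl
        have h4 : l.Coprime 2 := (Nat.coprime_primes hp Nat.prime_two).2 (by omega)
        exact Nat.Coprime.pow_right 4 h4
      have hfr : (∏ l ∈ x.2, l) ∣ r := by
        refine Finset.prod_primes_dvd r (fun l hl => (hT l hl).2.1.prime) fun l hl => (hT l hl).2.2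
      have hfz : (∏ l ∈ x.2, l) ∣ (∏ l ∈ (Finset.Icc 3 z).filter Nat.Prime, l) := by
        refine Finset.prod_dvd_prod_of_subset _ _ _ fun l hl => ?_
        rw [Finset.mem_filter, Finset.mem_Icc]
        exact ⟨(hT l hl).1, (hT l hl).2.1⟩
      obtain ⟨g1, g2, g3⟩ := hΨ x.1 hx1.1
      have hne : ¬ (x.1 = 1 ∧ (∏ l ∈ x.2, l) = 1) := by
        rintro ⟨e1, e2⟩
        apply hx2
        refine Prod.ext e1 ?_
        change x.2 = ∅
        rw [Finset.eq_empty_iff_forall_notMem]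
        intro l hl
        have h5 : l ∣ 1 := by
          rw [← e2]
          exact Finset.dvd_prod_of_mem (fun l => l) hl
        exact (hT l hl).2.1.one_lt.ne' (Nat.dvd_one.1 h5)
      obtain ⟨X0, h⟩ := pair_bound hFS hNBAD ha hfs hfc
        (hA x.1 (∏ l ∈ x.2, l) hfr hfz g1 g2 g3 hne) hl hε'0
      exact ⟨X0, fun _ _ => h⟩
    · exact ⟨0, fun h h' => absurd ⟨h, h'⟩ hx⟩
  choose XE hXE using hpair
  obtain ⟨X3, h3⟩ := TEh.large_y ha z
  refine ⟨max (max X3 1) ((Ψ ×ˢ (LL z r).powerset).sup XE), fun X hX t => ?_⟩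
  have hX3 : X3 ≤ X := (le_max_left _ _).trans ((le_max_left _ _).trans hX)
  have hX5 : ∀ x ∈ Ψ ×ˢ (LL z r).powerset, XE x ≤ X := fun w hw =>
    le_trans (le_trans (Finset.le_sup hw) (le_max_right _ _)) hX
  have hy : z ≤ yA a X := h3 X hX3
  have hlogX : 0 ≤ Real.log X := Real.log_natCast_nonneg X
  set N2 : ℝ := NA a X ^ 2 / Real.log X with hN2
  have hN20 : 0 ≤ N2 := div_nonneg (sq_nonneg _) hlogX
  have hSF : 0 ≤ SF a X (kA a X) ∅ l t :=
    Finset.sum_nonneg fun s _ => Finset.sum_nonneg fun t' _ => hfej _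
  -- the expansion
  have hexp : ((SAN a z r X l t : ℝ) : ℂ) = ∑ x ∈ Ψ ×ˢ (LL z r).powerset,
      ((Cr z r * c x.1 : ℝ) : ℂ) * EP a X l t x.1 (∏ l ∈ x.2, l) := by
    have e1 : ∀ x : DirichletCharacter ℂ 8 × Finset ℕ,
        ((Cr z r * c x.1 : ℝ) : ℂ) * EP a X l t x.1 (∏ l ∈ x.2, l) =
        ∑ s ∈ SA a X, ∑ t' ∈ SA a X, ((Cr z r * c x.1 : ℝ) : ℂ) *
          (x.1 ((prodS s * prodS t' : ℕ) : ZMod 8) *
          ((jacobiSym ((prodS s * prodS t' : ℕ) : ℤ) (∏ l ∈ x.2, l) : ℤ) : ℂ) *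
          ((fej (l * (Real.log (prodS s * prodS t' : ℕ) - t)) : ℝ) : ℂ)) := by
      intro x
      unfold EP
      rw [Finset.mul_sum]
      exact Finset.sum_congr rfl fun s _ => by rw [Finset.mul_sum]
    rw [Finset.sum_congr rfl fun x _ => e1 x, Finset.sum_comm]
    unfold SAN
    rw [Complex.ofReal_sum]
    refine Finset.sum_congr rfl fun s hs => ?_
    rw [Complex.ofReal_sum, Finset.sum_comm]
    refine Finset.sum_congr rfl fun t' ht => ?_
    have h1 := prodS_odd hz hy hs ht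
    rw [AN_expand, Finset.sum_product]
    rw [Complex.ofReal_mul, Complex.ofReal_mul, hc _ h1, Complex.ofReal_mul, Complex.ofReal_sum,
      Finset.sum_mul, Finset.sum_mul]
    refine Finset.sum_congr rfl fun ψ _ => ?_
    rw [Finset.mul_sum, Finset.mul_sum, Finset.sum_mul]
    refine Finset.sum_congr rfl fun T _ => ?_
    simp only []
    push_cast
    ring
  have hmem : ((1 : DirichletCharacter ℂ 8), (∅ : Finset ℕ)) ∈ Ψ ×ˢ (LL z r).powerset := by
    rw [Finset.mem_product]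
    exact ⟨h1, Finset.empty_mem_powerset _⟩
  rw [← Finset.add_sum_erase _ _ hmem] at hexp
  simp only [Finset.prod_empty] at hexp
  rw [EP_one hz hy] at hexp
  have herr : ‖∑ x ∈ (Ψ ×ˢ (LL z r).powerset).erase (1, ∅),
      ((Cr z r * c x.1 : ℝ) : ℂ) * EP a X l t x.1 (∏ l ∈ x.2, l)‖ ≤ ε * N2 := by
    have h5 : ∀ x ∈ (Ψ ×ˢ (LL z r).powerset).erase (1, ∅),
        ‖((Cr z r * c x.1 : ℝ) : ℂ) * EP a X l t x.1 (∏ l ∈ x.2, l)‖ ≤
          |Cr z r * c x.1| * (ε' * N2) := by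
      intro x hx
      rw [Finset.mem_erase] at hx
      rw [norm_mul, Complex.norm_real, Real.norm_eq_abs]
      exact mul_le_mul_of_nonneg_left (hXE x hx.2 hx.1 X (hX5 x hx.2) t) (abs_nonneg _)
    refine (norm_sum_le _ _).trans ((Finset.sum_le_sum h5).trans ?_)
    rw [← Finset.sum_mul]
    have h6 : ∑ x ∈ (Ψ ×ˢ (LL z r).powerset).erase (1, ∅), |Cr z r * c x.1| ≤ A :=
      Finset.sum_le_sum_of_subset_of_nonneg (Finset.erase_subset _ _) fun _ _ _ => abs_nonneg _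
    have h7 : A * ε' ≤ ε := by
      rw [hε', ← mul_div_assoc, div_le_iff₀ (by positivity)]
      nlinarith
    calc _ ≤ A * (ε' * N2) := mul_le_mul_of_nonneg_right h6 (by positivity)
      _ = A * ε' * N2 := by ring
      _ ≤ ε * N2 := mul_le_mul_of_nonneg_right h7 hN20
  have hre := congrArg Complex.re hexp
  rw [Complex.ofReal_re, Complex.add_re, ← Complex.ofReal_mul, Complex.ofReal_re] at hre
  have h8 := (Complex.abs_re_le_norm (∑ x ∈ (Ψ ×ˢ (LL z r).powerset).erase (1, ∅),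
      ((Cr z r * c x.1 : ℝ) : ℂ) * EP a X l t x.1 (∏ l ∈ x.2, l))).trans herr
  have h9 := (le_abs_self _).trans h8
  have h10 : Cr z r * c 1 = 2 * PiR z r := by
    rw [PiR_eq hz, hc1]; ring
  rw [hre, h10]
  have h11 : 0 ≤ ε * SF a X (kA a X) ∅ l t := mul_nonneg hε.le hSF
  nlinarith

omit [PSet] in
theorem odd_cases {n : ℕ} (hn : ¬ 2 ∣ n) :
    (n % 8 = 1 ∧ (n : ZMod 8) = 1) ∨ (n % 8 = 3 ∧ (n : ZMod 8) = 3) ∨
      (n % 8 = 5 ∧ (n : ZMod 8) = 5) ∨ (n % 8 = 7 ∧ (n : ZMod 8) = 7) := by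
  have h1 : (n : ZMod 8) = ((n % 8 : ℕ) : ZMod 8) := (ZMod.natCast_mod n 8).symm
  have h2 : n % 8 = 1 ∨ n % 8 = 3 ∨ n % 8 = 5 ∨ n % 8 = 7 := by omega
  rcases h2 with h | h | h | h <;> rw [h] at h1 <;> simp [h, h1]

/-- complex-valued character -/
noncomputable def cha (χ : MulChar (ZMod 8) ℤ) : DirichletCharacter ℂ 8 :=
  χ.ringHomComp (Int.castRingHom ℂ)

omit [PSet] in
theorem cha_apply (χ : MulChar (ZMod 8) ℤ) (x : ZMod 8) : cha χ x = ((χ x : ℤ) : ℂ) := rfl

omit [PSet] in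
theorem chi_two (r : ℕ) : chi r 2 = chi2 r := by
  unfold chi
  have h1 : padicValNat 2 2 = 1 := by
    haveI : Fact (Nat.Prime 2) := ⟨Nat.prime_two⟩
    exact padicValNat.self (by norm_num)
  rw [h1]
  simp

theorem D_SA_true : P2_FJ → P2_FS → D_NBAD → D_SA := by
  intro hFJ hFS hNBAD a ha z r hz hr hA
  have hone : ∀ x : ZMod 8, (x = 1 ∨ x = 3 ∨ x = 5 ∨ x = 7) → (1 : DirichletCharacter ℂ 8) x = 1 := by
    intro x hx
    refine MulChar.one_apply ?_
    rcases hx with rfl | rfl | rfl | rfl <;> decide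
  rcases hr.2.1 with h1 | h8 | h12
  · -- odd
    refine main hFJ hFS hNBAD ha hz hA {1} (fun _ => 2 * (1 - (chi r 2 : ℝ) / 2))
      (Finset.mem_singleton_self _) ?_ rfl ?_
    · intro n hn
      rw [Finset.sum_singleton]
      have h3 : (1 : DirichletCharacter ℂ 8) (n : ZMod 8) = 1 := by
        apply hone
        rcases odd_cases hn with h | h | h | h <;> simp [h.2]
      rw [h3, mul_one, chi_two]
      congr 1
      have h2 : r % 8 = 1 ∨ r % 8 = 5 := by omega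
      unfold al2 chi2
      rcases h2 with h | h
      · have e : ((r : ℕ) : ℤ) % 8 = 1 := by omega
        simp only [h, e]
        norm_num
      · have e : ((r : ℕ) : ℤ) % 8 = 5 := by omega
        simp only [h, e]
        norm_num
    · intro ψ hψ
      rw [Finset.mem_singleton] at hψ
      exact ⟨fun _ => hψ, fun h => by omega, fun h => by omega⟩
  · -- r = 8 mod 16
    have hchi : chi r 2 = 0 := by
      rw [chi_two]
      unfold chi2
      have e1 : ¬ ((r : ℕ) : ℤ) % 8 = 1 := by omega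
      have e2 : ¬ ((r : ℕ) : ℤ) % 8 = 5 := by omega
      rw [if_neg e1, if_neg e2]
    have n1 : cha ZMod.χ₈ ≠ 1 := by
      intro h
      have h3 := congrArg (fun ψ : DirichletCharacter ℂ 8 => ψ 3) h
      simp only [cha_apply] at h3
      rw [hone 3 (by simp), show (ZMod.χ₈ 3 : ℤ) = -1 from by decide] at h3
      norm_num at h3
    have n2 : cha ZMod.χ₈' ≠ 1 := by
      intro h
      have h3 := congrArg (fun ψ : DirichletCharacter ℂ 8 => ψ 5) h
      simp only [cha_apply] at h3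
      rw [hone 5 (by simp), show (ZMod.χ₈' 5 : ℤ) = -1 from by decide] at h3
      norm_num at h3
    have n3 : cha ZMod.χ₈ ≠ cha ZMod.χ₈' := by
      intro h
      have h3 := congrArg (fun ψ : DirichletCharacter ℂ 8 => ψ 3) h
      simp only [cha_apply] at h3
      rw [show (ZMod.χ₈ 3 : ℤ) = -1 from by decide, show (ZMod.χ₈' 3 : ℤ) = 1 from by decide] at h3
      norm_num at h3
    refine main hFJ hFS hNBAD ha hz hA {1, cha ZMod.χ₈, cha ZMod.χ₈'}
      (fun ψ => if ψ = 1 then 2 else 1) (by simp) ?_ (by simp [hchi]) ?_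
    · intro n hn
      rw [Finset.sum_insert (by simp [n1.symm, n2.symm]), Finset.sum_insert (by simp [n3]),
        Finset.sum_singleton, if_pos rfl, if_neg n1, if_neg n2, cha_apply, cha_apply]
      have e0 : r % 8 = 0 := by omega
      have e1 : ¬ r % 16 = 12 := by omega
      unfold al2
      rcases odd_cases hn with ⟨h, h'⟩ | ⟨h, h'⟩ | ⟨h, h'⟩ | ⟨h, h'⟩
      · rw [h', hone 1 (by simp), show (ZMod.χ₈ 1 : ℤ) = 1 from by decide,
          show (ZMod.χ₈' 1 : ℤ) = 1 from by decide]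
        simp only [e0, e1, h]
        norm_num
      · rw [h', hone 3 (by simp), show (ZMod.χ₈ 3 : ℤ) = -1 from by decide,
          show (ZMod.χ₈' 3 : ℤ) = 1 from by decide]
        simp only [e0, e1, h]
        norm_num
      · rw [h', hone 5 (by simp), show (ZMod.χ₈ 5 : ℤ) = -1 from by decide,
          show (ZMod.χ₈' 5 : ℤ) = -1 from by decide]
        simp only [e0, e1, h]
        norm_num
      · rw [h', hone 7 (by simp), show (ZMod.χ₈ 7 : ℤ) = 1 from by decide,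
          show (ZMod.χ₈' 7 : ℤ) = -1 from by decide]
        simp only [e0, e1, h]
        norm_num
    · intro ψ hψ
      refine ⟨fun h => absurd (by omega) h, fun h => by omega, fun _ => ?_⟩
      rw [Finset.mem_insert, Finset.mem_insert, Finset.mem_singleton] at hψ
      rcases hψ with rfl | rfl | rfl
      · exact Or.inl rfl
      · right
        rw [cha_apply, show (ZMod.χ₈ 5 : ℤ) = -1 from by decide]
        norm_num
      · right
        rw [cha_apply, show (ZMod.χ₈' 5 : ℤ) = -1 from by decide]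
        norm_num
  · -- r = 12 mod 16
    have hchi : chi r 2 = 0 := by
      rw [chi_two]
      unfold chi2
      have e1 : ¬ ((r : ℕ) : ℤ) % 8 = 1 := by omega
      have e2 : ¬ ((r : ℕ) : ℤ) % 8 = 5 := by omega
      rw [if_neg e1, if_neg e2]
    have hv : ∀ x : ZMod 8, cha (ZMod.χ₈ * ZMod.χ₈') x = ((ZMod.χ₈ x * ZMod.χ₈' x : ℤ) : ℂ) := by
      intro x
      rw [cha_apply, MulChar.mul_apply]
    have n1 : cha (ZMod.χ₈ * ZMod.χ₈') ≠ 1 := by
      intro h
      have h3 := congrArg (fun ψ : DirichletCharacter ℂ 8 => ψ 3) h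
      simp only [hv] at h3
      rw [hone 3 (by simp), show (ZMod.χ₈ 3 * ZMod.χ₈' 3 : ℤ) = -1 from by decide] at h3
      norm_num at h3
    refine main hFJ hFS hNBAD ha hz hA {1, cha (ZMod.χ₈ * ZMod.χ₈')}
      (fun _ => 2) (by simp) ?_ (by simp [hchi]) ?_
    · intro n hn
      rw [Finset.sum_insert (by simp [n1.symm]), Finset.sum_singleton, hv]
      have e0 : r % 8 = 4 := by omega
      unfold al2
      rcases odd_cases hn with ⟨h, h'⟩ | ⟨h, h'⟩ | ⟨h, h'⟩ | ⟨h, h'⟩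
      · have e1 : n % 4 = 1 := by omega
        rw [h', hone 1 (by simp), show (ZMod.χ₈ 1 * ZMod.χ₈' 1 : ℤ) = 1 from by decide]
        simp only [e0, h12, e1]
        norm_num
      · have e1 : n % 4 = 3 := by omega
        rw [h', hone 3 (by simp), show (ZMod.χ₈ 3 * ZMod.χ₈' 3 : ℤ) = -1 from by decide]
        simp only [e0, h12, e1]
        norm_num
      · have e1 : n % 4 = 1 := by omega
        rw [h', hone 5 (by simp), show (ZMod.χ₈ 5 * ZMod.χ₈' 5 : ℤ) = 1 from by decide]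
        simp only [e0, h12, e1]
        norm_num
      · have e1 : n % 4 = 3 := by omega
        rw [h', hone 7 (by simp), show (ZMod.χ₈ 7 * ZMod.χ₈' 7 : ℤ) = -1 from by decide]
        simp only [e0, h12, e1]
        norm_num
    · intro ψ hψ
      refine ⟨fun h => absurd (by omega) h, fun _ => ?_, fun h => by omega⟩
      rw [Finset.mem_insert, Finset.mem_singleton] at hψ
      rcases hψ with rfl | rfl
      · exact hone 5 (by simp)
      · rw [hv, show (ZMod.χ₈ 5 * ZMod.χ₈' 5 : ℤ) = 1 from by decide]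
        norm_num

end Pool.Agent.N71.PS.SA
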