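import Pool.Agent.N71.PS.TE
import Pool.Agent.N71.PS.TA
import Pool.Agent.N71.PS.DStubs

/-!
# The main term for one t (D_TA), arbitrary sets of primes
-/

set_option autoImplicit false
set_option linter.unusedSectionVars false

namespace Pool.Agent.N71.PS.TA

open Finset Filter NumberField Pool.Agent.H38R2.CG Pool.Agent.H38R2.CG2
open scoped Classical

variable [PSet]

omit [PSet] in
theorem AN_nonneg (z r n : ℕ) : 0 ≤ AN z r n := by
  unfold AN
  refine mul_nonneg ?_ (Finset.prod_nonneg fun l hl => ?_)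
  · unfold al2
    split_ifs <;> norm_num
  · rw [Finset.mem_filter, Finset.mem_Icc] at hl
    unfold al
    have h1 : ∀ x : ℤ, |((jacobiSym x l : ℤ) : ℝ)| ≤ 1 := by
      intro x
      rcases jacobiSym.trichotomy x l with h | h | h <;> rw [h] <;> simp
    split_ifs
    · have := abs_le.1 (h1 (n : ℤ))
      linarith [this.1]
    · have h2 := abs_le.1 (h1 (r : ℤ))
      have h3 : (3 : ℝ) ≤ l := by exact_mod_cast hl.1.1
      have : (jacobiSym (r : ℤ) l : ℝ) / l ≤ 1 := by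
        rw [div_le_one (by linarith)]
        linarith [h2.2]
      linarith

theorem SAN_nonneg (hfej : ∀ h, 0 ≤ fej h) (a : ℝ) (z r X : ℕ) (l t : ℝ) :
    0 ≤ SAN a z r X l t :=
  Finset.sum_nonneg fun _ _ => Finset.sum_nonneg fun _ _ => mul_nonneg (AN_nonneg _ _ _) (hfej _)

/-- bad for a divisor of the modulus implies bad for the modulus -/
theorem badF_lift {β : ℝ} {M M' y f : ℕ} (hM : M ∣ M') (hf : f ≠ 1)
    (hp : ∀ p ∈ PP y, p.Coprime M') (h : BadF β M y f) : BadF β M' y f := by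
  obtain ⟨ψ, _, h2⟩ := h
  refine ⟨DirichletCharacter.changeLevel hM ψ, fun hh => hf hh.2, ?_⟩
  have e1 : ∑ p ∈ PP y, (DirichletCharacter.changeLevel hM ψ) (p : ZMod M') *
      ((jacobiSym (p : ℤ) f : ℤ) : ℂ) =
      ∑ p ∈ PP y, ψ (p : ZMod M) * ((jacobiSym (p : ℤ) f : ℤ) : ℂ) := by
    refine Finset.sum_congr rfl fun p hpp => ?_
    congr 1
    have hc := hp p hpp
    have h3 := DirichletCharacter.changeLevel_eq_cast_of_dvd ψ hM (ZMod.unitOfCoprime p hc)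
    rw [ZMod.coe_unitOfCoprime, ZMod.cast_natCast hM] at h3
    exact h3
  rw [e1]
  exact h2

omit [PSet] in
/-- the harmonic weight of an `f` without small prime factors -/
theorem om_le {z C0 f : ℕ} (hz : 2 ≤ z) (hC : C0 + 1 ≤ z) (hf1 : f ≠ 1)
    (hfs : Squarefree f) (hfc : f.Coprime (Qz z)) :
    ((C0 + 1 : ℝ) ^ f.primeFactors.card / f) ≤ (C0 + 1) / z := by
  have hz0 : (0 : ℝ) < z := by exact_mod_cast (by omega : 0 < z)
  have hpz : ∀ p ∈ f.primeFactors, z < p := by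
    intro p hp
    rw [Nat.mem_primeFactors] at hp
    by_contra hle
    push Not at hle
    have hpQ : p ∣ Qz z := by
      unfold Qz
      rcases eq_or_ne p 2 with h2 | h2
      · subst h2
        exact Dvd.dvd.mul_right (by norm_num) _
      · have hp3 : 3 ≤ p := by
          have := hp.1.two_le
          omega
        refine Dvd.dvd.mul_left ?_ _
        refine (dvd_pow_self p two_ne_zero).trans
          (Finset.dvd_prod_of_mem (fun l => l ^ 2) ?_)
        rw [Finset.mem_filter, Finset.mem_Icc]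
        exact ⟨⟨hp3, hle⟩, hp.1⟩
    have := Nat.dvd_gcd hp.2.1 hpQ
    rw [hfc] at this
    exact hp.1.one_lt.ne' (Nat.dvd_one.1 this)
  have hprod : (f : ℝ) = ∏ p ∈ f.primeFactors, (p : ℝ) := by
    rw [← Nat.cast_prod, Nat.prod_primeFactors_of_squarefree hfs]
  have e1 : ((C0 + 1 : ℝ) ^ f.primeFactors.card / f) =
      ∏ p ∈ f.primeFactors, ((C0 + 1 : ℝ) / p) := by
    rw [Finset.prod_div_distrib, Finset.prod_const, ← hprod]
  rw [e1]
  obtain ⟨q, hq, hqf⟩ := Nat.exists_prime_and_dvd hf1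
  have hqm : q ∈ f.primeFactors := Nat.mem_primeFactors.2 ⟨hq, hqf, hfs.ne_zero⟩
  rw [← Finset.mul_prod_erase _ _ hqm]
  have h1 : ∏ p ∈ f.primeFactors.erase q, ((C0 + 1 : ℝ) / p) ≤ 1 := by
    refine Finset.prod_le_one (fun p _ => by positivity) fun p hp => ?_
    have h2 := hpz p (Finset.mem_of_mem_erase hp)
    have h3 : ((C0 : ℝ) + 1) ≤ p := by
      have : C0 + 1 ≤ p := by omega
      exact_mod_cast this
    exact div_le_one_of_le₀ h3 (Nat.cast_nonneg _)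
  have h2 : ((C0 + 1 : ℝ) / q) ≤ (C0 + 1) / z := by
    have h3 : (z : ℝ) ≤ q := by exact_mod_cast (hpz q hqm).le
    exact div_le_div_of_nonneg_left (by positivity) hz0 h3
  calc ((C0 + 1 : ℝ) / q) * ∏ p ∈ f.primeFactors.erase q, ((C0 + 1 : ℝ) / p)
      ≤ ((C0 + 1 : ℝ) / q) * 1 := mul_le_mul_of_nonneg_left h1 (by positivity)
    _ ≤ _ := by rw [mul_one]; exact h2

/-- the fixed part of `v` divides a constant -/
theorem qpart_dvd_W {z e v : ℕ} (hv : 1 ≤ v)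
    (h : ∀ p ∈ (Qz z).primeFactors, ¬ p ^ (e + 1) ∣ v) :
    qpart z v ∣ ∏ p ∈ (Qz z).primeFactors, p ^ e := by
  have hQ : 0 < Qz z := TAh.Qz_pos z
  have hsub : v.primeFactors.filter (fun p => p ∣ Qz z) ⊆ (Qz z).primeFactors := by
    intro p hp
    rw [Finset.mem_filter, Nat.mem_primeFactors] at hp
    exact Nat.mem_primeFactors.2 ⟨hp.1.1, hp.2, hQ.ne'⟩
  unfold qpart
  refine (Finset.prod_dvd_prod_of_dvd _ (fun p => p ^ e) fun p hp => ?_).trans
    (Finset.prod_dvd_prod_of_subset _ _ _ hsub)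
  refine pow_dvd_pow p ?_
  by_contra hlt
  push Not at hlt
  have h1 := h p (hsub hp)
  rw [Finset.mem_filter, Nat.mem_primeFactors] at hp
  exact h1 ((Nat.Prime.pow_dvd_iff_le_factorization hp.1.1 (by omega)).2 hlt)

omit [PSet] in
theorem sum_biUnion_le' (s : Finset ℕ) (t : ℕ → Finset ℕ) (g : ℕ → ℝ) (hg : ∀ v, 0 ≤ g v) :
    ∑ v ∈ s.biUnion t, g v ≤ ∑ p ∈ s, ∑ v ∈ t p, g v := by
  induction s using Finset.induction_on with
  | empty => simp
  | insert a s ha ih =>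
    rw [Finset.biUnion_insert, Finset.sum_insert ha]
    have h1 := Finset.sum_union_inter (s₁ := t a) (s₂ := s.biUnion t) (f := g)
    have h2 : 0 ≤ ∑ v ∈ t a ∩ s.biUnion t, g v := Finset.sum_nonneg fun v _ => hg v
    linarith

/-- the terms with `v` divisible by a high power of a prime dividing `Q` -/
theorem part1 (hB3 : P_TB3c) (hJP : P2_JP) (hfej : ∀ h, 0 ≤ fej h) {a : ℝ} {z r e C0 X : ℕ}
    {l : ℝ} (hz : 2 ≤ z) (hy : z ≤ yA a X) {ρ : ℕ → ℝ}
    (hρ : SWt z X (PA a X) (cc a) C0 ρ) {V : ℕ} {F : ℝ → ℝ} {I t B : ℝ} (hF0 : ∀ x, 0 ≤ F x)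
    (hB0 : 0 ≤ B)
    (hTC : ∀ w : ℕ, 1 ≤ w → (∀ p : ℕ, p.Prime → p ∣ w → p ∣ Qz z) →
      ∑ v ∈ (Finset.Icc 1 V).filter (fun v => w ∣ v), UJ a z X (kA a X) ρ ∅ F l t v ≤
        (I / w) * B) (hI0 : 0 ≤ I) :
    ∑ v ∈ (Finset.Icc 1 V).filter (fun v => ¬ ∀ p ∈ (Qz z).primeFactors, ¬ p ^ (e + 1) ∣ v),
      F v * ∑ s ∈ SA a X, ∑ t' ∈ SA a X, (rhoQ z r (prodS s * prodS t') v : ℝ) *
      JJ z X ρ ∅ (prodS s * prodS t') v * fej (l * (Real.log (prodS s * prodS t' : ℕ) - t)) ≤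
      (Qz z * 8 * 2 ^ z : ℝ) * ((Qz z).primeFactors.card * ((1 / 2 : ℝ) ^ (e + 1) * (I * B))) := by
  set K : ℝ := (Qz z : ℝ) * 8 * 2 ^ z with hK
  have hKpos : 0 < K := by
    have := TAh.Qz_pos z
    have h2 : (0 : ℝ) < Qz z := by exact_mod_cast this
    positivity
  set Tm : ℕ → ℝ := fun v => F v * ∑ s ∈ SA a X, ∑ t' ∈ SA a X,
    (rhoQ z r (prodS s * prodS t') v : ℝ) * JJ z X ρ ∅ (prodS s * prodS t') v *
      fej (l * (Real.log (prodS s * prodS t' : ℕ) - t)) with hTm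
  have hUJ0 : ∀ v, 0 ≤ UJ a z X (kA a X) ρ ∅ F l t v := by
    intro v
    unfold UJ
    refine mul_nonneg (hF0 _) (Finset.sum_nonneg fun s _ => Finset.sum_nonneg fun t' _ => ?_)
    exact mul_nonneg (hJP z X (PA a X) (cc a) C0 ρ _ _ _ hρ) (hfej _)
  have hTle : ∀ v ∈ Finset.Icc 1 V, Tm v ≤ K * UJ a z X (kA a X) ρ ∅ F l t v := by
    intro v hv
    rw [Finset.mem_Icc] at hv
    rw [hTm]
    simp only
    unfold UJ
    rw [← mul_assoc, mul_comm K, mul_assoc]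
    refine mul_le_mul_of_nonneg_left ?_ (hF0 _)
    rw [Finset.mul_sum]
    refine Finset.sum_le_sum fun s hs => ?_
    rw [Finset.mul_sum]
    refine Finset.sum_le_sum fun t' ht' => ?_
    have hcop : (prodS s * prodS t').Coprime (Qz z) :=
      Nat.Coprime.mul_left (TAh.prodS_coprime hz hy hs) (TAh.prodS_coprime hz hy ht')
    have h1 : (rhoQ z r (prodS s * prodS t') v : ℝ) ≤ K := by
      have := hB3 z r (prodS s * prodS t') v hv.1 hcop
      rw [hK]; exact_mod_cast this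
    have e : prodS (∅ : Finset ℕ) ^ 2 * (prodS s * prodS t') = prodS s * prodS t' := by
      unfold prodS; simp
    rw [e, ← mul_assoc]
    refine mul_le_mul_of_nonneg_right ?_ (hfej _)
    exact mul_le_mul_of_nonneg_right h1 (hJP z X (PA a X) (cc a) C0 ρ _ _ _ hρ)
  calc ∑ v ∈ (Finset.Icc 1 V).filter (fun v => ¬ ∀ p ∈ (Qz z).primeFactors, ¬ p ^ (e + 1) ∣ v), Tm v
      ≤ ∑ v ∈ (Finset.Icc 1 V).filter (fun v => ¬ ∀ p ∈ (Qz z).primeFactors, ¬ p ^ (e + 1) ∣ v),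
          K * UJ a z X (kA a X) ρ ∅ F l t v :=
        Finset.sum_le_sum fun v hv => hTle v (Finset.mem_filter.1 hv).1
    _ ≤ ∑ v ∈ (Qz z).primeFactors.biUnion
          (fun p => (Finset.Icc 1 V).filter (fun v => p ^ (e + 1) ∣ v)),
          K * UJ a z X (kA a X) ρ ∅ F l t v := by
        refine Finset.sum_le_sum_of_subset_of_nonneg ?_ fun v _ _ =>
          mul_nonneg hKpos.le (hUJ0 v)
        intro v hv
        rw [Finset.mem_filter] at hv
        obtain ⟨h1, h2⟩ := hv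
        push Not at h2
        obtain ⟨p, hp, hpv⟩ := h2
        rw [Finset.mem_biUnion]
        exact ⟨p, hp, Finset.mem_filter.2 ⟨h1, hpv⟩⟩
    _ ≤ ∑ p ∈ (Qz z).primeFactors, ∑ v ∈ (Finset.Icc 1 V).filter (fun v => p ^ (e + 1) ∣ v),
          K * UJ a z X (kA a X) ρ ∅ F l t v :=
        sum_biUnion_le' _ _ _ fun v => mul_nonneg hKpos.le (hUJ0 v)
    _ ≤ ∑ p ∈ (Qz z).primeFactors, K * ((1 / 2 : ℝ) ^ (e + 1) * (I * B)) := by
        refine Finset.sum_le_sum fun p hp => ?_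
        rw [← Finset.mul_sum]
        refine mul_le_mul_of_nonneg_left ?_ hKpos.le
        rw [Nat.mem_primeFactors] at hp
        have h1 := hTC (p ^ (e + 1)) (Nat.one_le_pow _ _ hp.1.pos) (by
          intro q hq hqp
          have := (Nat.prime_dvd_prime_iff_eq hq hp.1).1 (hq.dvd_of_dvd_pow hqp)
          rw [this]; exact hp.2.1)
        refine h1.trans ?_
        have h2 : (1 : ℝ) / ((p ^ (e + 1) : ℕ) : ℝ) ≤ (1 / 2 : ℝ) ^ (e + 1) := by
          rw [one_div_pow]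
          have h3 : ((2 : ℝ)) ^ (e + 1) ≤ ((p ^ (e + 1) : ℕ) : ℝ) := by
            push_cast
            exact pow_le_pow_left₀ (by norm_num) (by exact_mod_cast hp.1.two_le) _
          exact one_div_le_one_div_of_le (by positivity) h3
        calc I / ((p ^ (e + 1) : ℕ) : ℝ) * B = 1 / ((p ^ (e + 1) : ℕ) : ℝ) * (I * B) := by ring
          _ ≤ _ := mul_le_mul_of_nonneg_right h2 (mul_nonneg hI0 hB0)
    _ = _ := by
        rw [Finset.sum_const, nsmul_eq_mul]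
        ring

open TEh in
/-- one `f` that is not bad -/
theorem good_f (hFS : P2_FS) (hTD : P2_TD) (hfej : ∀ h, 0 ≤ fej h) {a : ℝ} {z r X f v : ℕ}
    {l t b : ℝ} (hz : 2 ≤ z) (hr : FundRes z r) (hl : 0 < l)
    (hPA : ∀ p ∈ PA a X, p.Prime ∧ ¬ p ∣ Qz z)
    (hv : 1 ≤ v) {M' : ℕ} (hM' : Qz z * (qpart z v) ^ 2 ∣ M') (hM'p : ∀ p : ℕ, p.Prime → p ∣ M' →
      p ∣ Qz z) (hf : f ≠ 1) (hfs : Squarefree f) (hfc : f.Coprime (2 * M'))
    (hbad : ¬ BadF (1 / 2) M' (yA a X) f) (hb0 : 0 ≤ b)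
    (hb : ∀ (ψ : DirichletCharacter ℂ (Qz z * (qpart z v) ^ 2)) (f : ℕ), Squarefree f →
      f.Coprime (2 * (Qz z * (qpart z v) ^ 2)) →
      ‖∑ p ∈ PP (yA a X), ψ (p : ZMod (Qz z * (qpart z v) ^ 2)) *
        ((jacobiSym (p : ℤ) f : ℤ) : ℂ)‖ ≤ 1 / 2 * (PP (yA a X)).card → ∀ ξ : ℝ, |ξ| ≤ l →
      ‖∑ s ∈ (PA a X).powersetCard (kA a X), ψ (prodS s : ZMod (Qz z * (qpart z v) ^ 2)) *
        ((jacobiSym (prodS s : ℤ) f : ℤ) : ℂ) *
        Complex.exp (ξ * Real.log (prodS s) * Complex.I)‖ ≤ b) :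
    |∑ s ∈ SA a X, ∑ t' ∈ SA a X,
        (rhoQ z r (prodS s * prodS t') v : ℝ) *
        ((jacobiSym ((prodS s * prodS t' : ℕ) : ℤ) f : ℤ) : ℝ) *
        fej (l * (Real.log (prodS s * prodS t' : ℕ) - t))| ≤
      (Qz z * 8 * 2 ^ z : ℝ) *
        ((Fintype.card (DirichletCharacter ℂ (Qz z * (qpart z v) ^ 2)) : ℝ) * b ^ 2) := by
  have hM0 : 0 < Qz z * (qpart z v) ^ 2 :=
    Nat.mul_pos (TAh.Qz_pos z) (pow_pos (TAh.qpart_pos z v) 2)
  have hSF : 0 ≤ SF a X (kA a X) ∅ l t :=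
    Finset.sum_nonneg fun s _ => Finset.sum_nonneg fun t' _ => hfej _
  have hnb : ¬ BadF (1 / 2) (Qz z * (qpart z v) ^ 2) (yA a X) f := by
    intro h
    refine hbad (badF_lift hM' hf (fun p hp => ?_) h)
    obtain ⟨h1, h2⟩ := hPA p hp
    rw [h1.coprime_iff_not_dvd]
    exact fun h3 => h2 (hM'p p h1 h3)
  have hfc' : f.Coprime (2 * (Qz z * (qpart z v) ^ 2)) :=
    Nat.Coprime.coprime_dvd_right (Nat.mul_dvd_mul_left 2 hM') hfc
  have h6 := hTD z r v f X (kA a X) a l t hz hr hv fun p hp => (hPA p hp).2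
  rw [if_neg hf, sub_zero] at h6
  refine h6.trans ?_
  refine mul_le_mul_of_nonneg_left ?_ (by positivity)
  have h7 := EE_le (β := 1 / 2) (a := a) (X := X) (k := kA a X) (M := Qz z * (qpart z v) ^ 2)
    (f := f) (l := l) (t := t) hFS hfej hl hb0 (fun hnb' ψ hψ ξ hξ => by
      refine hb ψ f hfs hfc' ?_ ξ hξ
      by_contra hlt
      push Not at hlt
      exact hnb' ⟨ψ, hψ, hlt⟩) hSF
  rw [if_neg hnb, add_zero] at h7
  exact h7

open TEh in
theorem D_TA_true : P_TB3c → D_AV → P2_FJ → P2_FS → P2_JX → P2_KB → P2_HS → P2_JP → P2_TD →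
    D_CC7 → D_NBAD → D_TC → D_TA := by
  intro hB3 hAV hFJ hFS hJX hKB hHS hJP hTD hCC7 hNBAD hTC a ha C0 hC0 ε1 hε1
  obtain ⟨_, hfej, _, _, _⟩ := hFJ
  obtain ⟨K0, hK0⟩ := hCC7
  obtain ⟨Kc, hKc0, hKc⟩ := hTC a ha C0 hC0
  obtain ⟨z1, hz1⟩ := exists_nat_ge (((K0 : ℝ) * (C0 + 1)) / ε1)
  refine ⟨max z1 (C0 + 1), fun z hzz r hz hr l ε hl hε => ?_⟩
  have hzz1 : z1 ≤ z := (le_max_left _ _).trans hzz
  have hzC : C0 + 1 ≤ z := (le_max_right _ _).trans hzz
  have hz0 : (0 : ℝ) < z := by exact_mod_cast (by omega : 0 < z)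
  have hKz : (K0 : ℝ) * ((C0 + 1) / z) ≤ ε1 := by
    rw [← mul_div_assoc, div_le_iff₀ hz0]
    rw [div_le_iff₀ hε1] at hz1
    have : (z1 : ℝ) ≤ z := by exact_mod_cast hzz1
    nlinarith
  have hQ : 0 < Qz z := TAh.Qz_pos z
  set K : ℝ := (Qz z * 8 * 2 ^ z : ℝ) with hK
  have hKpos : 0 < K := by
    have h2 : (0 : ℝ) < Qz z := by exact_mod_cast hQ
    positivity
  -- the exponent
  set np : ℝ := ((Qz z).primeFactors.card : ℝ) with hnp
  have hnp0 : 0 ≤ np := Nat.cast_nonneg _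
  obtain ⟨e, he⟩ := exists_pow_lt_of_lt_one (show 0 < ε / 3 / (K * np * Kc + 1) by positivity)
    (show (1 / 2 : ℝ) < 1 by norm_num)
  have he' : K * (np * ((1 / 2 : ℝ) ^ (e + 1) * Kc)) ≤ ε / 3 := by
    have h1 : (1 / 2 : ℝ) ^ (e + 1) ≤ (1 / 2 : ℝ) ^ e :=
      pow_le_pow_of_le_one (by norm_num) (by norm_num) (Nat.le_succ e)
    rw [lt_div_iff₀ (by positivity)] at he
    have h2 : K * np * Kc * (1 / 2 : ℝ) ^ (e + 1) ≤ K * np * Kc * (1 / 2 : ℝ) ^ e :=
      mul_le_mul_of_nonneg_left h1 (by positivity)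
    have h3 : (0 : ℝ) < (1 / 2 : ℝ) ^ e := by positivity
    nlinarith
  -- the modulus
  set W : ℕ := ∏ p ∈ (Qz z).primeFactors, p ^ e with hW
  have hW0 : 0 < W := by
    rw [hW]
    exact Finset.prod_pos fun p hp => pow_pos (Nat.prime_of_mem_primeFactors hp).pos _
  have hWp : ∀ p : ℕ, p.Prime → p ∣ W → p ∣ Qz z := by
    intro p hp h
    rw [hW, Prime.dvd_finsetProd_iff hp.prime] at h
    obtain ⟨q, hq, hpq⟩ := h
    rw [Nat.mem_primeFactors] at hq
    rw [(Nat.prime_dvd_prime_iff_eq hp hq.1).1 (hp.dvd_of_dvd_pow hpq)]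
    exact hq.2.1
  set M : ℕ := Qz z * W ^ 2 with hM
  have hM1 : 1 ≤ M := Nat.mul_pos hQ (pow_pos hW0 2)
  have hMp : ∀ p : ℕ, p.Prime → p ∣ M → p ∣ Qz z := by
    intro p hp h
    rw [hM, hp.dvd_mul] at h
    rcases h with h | h
    · exact h
    · exact hWp p hp (hp.dvd_of_dvd_pow h)
  obtain ⟨F0, X2, h2⟩ := hK0 a ha M hM1 (2 * C0) (ε / 3 / K) (by positivity)
  obtain ⟨Cq, hCq0, hCq⟩ := hAV z r e hz hr (max F0 1)
  refine ⟨Cq, hCq0, ?_⟩
  -- sums with one character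
  have hN : ∀ w : ℕ, ∃ X0 : ℕ, 1 ≤ w → ∀ X ≥ X0, 3 ≤ X → ∃ b : ℝ, 0 ≤ b ∧
      K * ((Fintype.card (DirichletCharacter ℂ (Qz z * w ^ 2)) : ℝ) * b ^ 2) *
        (1 + Real.log X) ^ (2 * C0) ≤ ε / 3 * (NA a X ^ 2 / Real.log X) ∧
      ∀ (ψ : DirichletCharacter ℂ (Qz z * w ^ 2)) (f : ℕ), Squarefree f →
      f.Coprime (2 * (Qz z * w ^ 2)) →
      ‖∑ p ∈ PP (yA a X), ψ (p : ZMod (Qz z * w ^ 2)) *
        ((jacobiSym (p : ℤ) f : ℤ) : ℂ)‖ ≤ 1 / 2 * (PP (yA a X)).card → ∀ ξ : ℝ, |ξ| ≤ l →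
      ‖∑ s ∈ (PA a X).powersetCard (kA a X), ψ (prodS s : ZMod (Qz z * w ^ 2)) *
        ((jacobiSym (prodS s : ℤ) f : ℤ) : ℂ) *
        Complex.exp (ξ * Real.log (prodS s) * Complex.I)‖ ≤ b := by
    intro w
    by_cases hw : 1 ≤ w
    · have hMw : 1 ≤ Qz z * w ^ 2 := Nat.mul_pos hQ (pow_pos (by omega) 2)
      set Nc : ℝ := (Fintype.card (DirichletCharacter ℂ (Qz z * w ^ 2)) : ℝ) with hNc
      have hNc0 : 0 ≤ Nc := Nat.cast_nonneg _
      obtain ⟨X1, h1⟩ := hNBAD (1 / 2) (by norm_num) a ha (Qz z * w ^ 2) hMw (2 * C0) 0 l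
        (ε / 3 / (K * Nc + 1)) hl (by positivity)
      refine ⟨X1, fun _ X hX hX3 => ?_⟩
      obtain ⟨b, hb0, hb, hbb⟩ := h1 X hX (kA a X) (Nat.sub_le _ _) le_rfl
      refine ⟨b, hb0, ?_, hbb⟩
      have hlogX : 0 < Real.log X := Real.log_pos (by exact_mod_cast (by omega : 1 < X))
      have hCA : CA a X (kA a X) = NA a X := rfl
      rw [hCA] at hb
      have h3 : K * Nc * (ε / 3 / (K * Nc + 1)) ≤ ε / 3 := by
        have h4 : 0 < K * Nc + 1 := by positivity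
        rw [← mul_div_assoc, div_le_iff₀ h4]
        nlinarith
      calc K * (Nc * b ^ 2) * (1 + Real.log X) ^ (2 * C0)
          = K * Nc * (b ^ 2 * (1 + Real.log X) ^ (2 * C0)) := by ring
        _ ≤ K * Nc * (ε / 3 / (K * Nc + 1) / Real.log X * NA a X ^ 2) :=
            mul_le_mul_of_nonneg_left hb (by positivity)
        _ = K * Nc * (ε / 3 / (K * Nc + 1)) * (NA a X ^ 2 / Real.log X) := by ring
        _ ≤ ε / 3 * (NA a X ^ 2 / Real.log X) :=
            mul_le_mul_of_nonneg_right h3 (by positivity)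
    · exact ⟨0, fun h => absurd h hw⟩
  choose XE hXE using hN
  obtain ⟨X4, h4⟩ := hKc z 0 l hl
  obtain ⟨X3, h3⟩ := large_y ha z
  refine ⟨max (max (max X4 X2) (max X3 3)) (W.divisors.sup XE),
    fun X hX ρ hρ V F I t hF hF0 hI hV => ?_⟩
  have hX1 : X4 ≤ X := (le_max_left _ _).trans ((le_max_left _ _).trans ((le_max_left _ _).trans hX))
  have hX2 : X2 ≤ X := (le_max_right _ _).trans ((le_max_left _ _).trans ((le_max_left _ _).trans hX))
  have hX3 : X3 ≤ X := (le_max_left _ _).trans ((le_max_right _ _).trans ((le_max_left _ _).trans hX))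
  have hX4 : 3 ≤ X := (le_max_right _ _).trans ((le_max_right _ _).trans ((le_max_left _ _).trans hX))
  have hX5 : ∀ w ∈ W.divisors, XE w ≤ X := fun w hw =>
    le_trans (le_trans (Finset.le_sup hw) (le_max_right _ _)) hX
  have hy : z ≤ yA a X := h3 X hX3
  have hlogX : 0 < Real.log X := Real.log_pos (by exact_mod_cast (by omega : 1 < X))
  have hGG : 0 < GG X ρ := lt_of_lt_of_le (by positivity) hρ.low
  have hI0 : 0 ≤ I := by simpa using hI 0 le_rfl
  have hSF : 0 ≤ SF a X (kA a X) ∅ l t :=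
    Finset.sum_nonneg fun s _ => Finset.sum_nonneg fun t' _ => hfej _
  set S : ℝ := SF a X (kA a X) ∅ l t with hS
  set N2 : ℝ := NA a X ^ 2 / Real.log X with hN2
  have hN20 : 0 ≤ N2 := div_nonneg (sq_nonneg _) hlogX.le
  have hPA : ∀ p ∈ PA a X, p.Prime ∧ ¬ p ∣ Qz z := TAh.PA_ndvd hz hy
  have hcop : ∀ s ∈ SA a X, ∀ t' ∈ SA a X, (prodS s * prodS t').Coprime (Qz z) :=
    fun s hs t' ht' => Nat.Coprime.mul_left (TAh.prodS_coprime hz hy hs)
      (TAh.prodS_coprime hz hy ht')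
  have hSAN : 0 ≤ SAN a z r X l t := SAN_nonneg hfej a z r X l t
  have hS' : S = ∑ s ∈ SA a X, ∑ t' ∈ SA a X,
      fej (l * (Real.log (prodS s * prodS t' : ℕ) - t)) := by
    rw [hS]
    unfold SF SA
    refine Finset.sum_congr rfl fun s _ => Finset.sum_congr rfl fun t' _ => ?_
    simp [prodS]
  -- the terms with `v` divisible by a high power
  set cond : ℕ → Prop := fun v => ∀ p ∈ (Qz z).primeFactors, ¬ p ^ (e + 1) ∣ v with hcond
  set Tm : ℕ → ℝ := fun v => F v * ∑ s ∈ SA a X, ∑ t' ∈ SA a X,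
    (rhoQ z r (prodS s * prodS t') v : ℝ) * JJ z X ρ ∅ (prodS s * prodS t') v *
      fej (l * (Real.log (prodS s * prodS t' : ℕ) - t)) with hTm
  have hpart1 : ∑ v ∈ (Finset.Icc 1 V).filter (fun v => ¬ cond v), Tm v ≤
      GG X ρ * (ε / 3 * I * (S + N2)) := by
    have h5 := part1 (e := e) (r := r) (t := t) (I := I) (V := V) (F := F) (l := l)
      (B := GG X ρ * (Kc * (S + N2))) hB3 hJP hfej hz hy hρ hF0 (by positivity) (by
        intro w hw hwp
        have h6 := h4 X hX1 ρ hρ ∅ w V F I t (Finset.empty_subset _) (by simp) hw hwp hF hF0 hI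
          hV
        rw [Finset.card_empty, Nat.sub_zero, pow_zero, one_mul] at h6
        refine h6.trans (le_of_eq ?_)
        change GG X ρ * (I / w) * (Kc * (S + N2)) = _
        ring) hI0
    refine h5.trans ?_
    have h6 : 0 ≤ GG X ρ * I * (S + N2) := by positivity
    calc (Qz z * 8 * 2 ^ z : ℝ) * (((Qz z).primeFactors.card : ℝ) *
          ((1 / 2 : ℝ) ^ (e + 1) * (I * (GG X ρ * (Kc * (S + N2))))))
        = (K * (np * ((1 / 2 : ℝ) ^ (e + 1) * Kc))) * (GG X ρ * I * (S + N2)) := by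
          rw [hK, hnp]; ring
      _ ≤ (ε / 3) * (GG X ρ * I * (S + N2)) := mul_le_mul_of_nonneg_right he' h6
      _ = _ := by ring
  -- the other terms
  set Vs : Finset ℕ := (Finset.Icc 1 V).filter (fun v => cond v) with hVs
  set Fs : Finset ℕ := (Finset.Icc 1 X).filter
      (fun f => Squarefree f ∧ f.Coprime (Qz z) ∧ ∀ p ∈ (∅ : Finset ℕ), ¬ p ∣ f) with hFs
  have hFsm : ∀ f ∈ Fs, 1 ≤ f ∧ f ≤ X ∧ Squarefree f ∧ f.Coprime (Qz z) := by
    intro f hf
    rw [hFs, Finset.mem_filter, Finset.mem_Icc] at hf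
    exact ⟨hf.1.1, hf.1.2, hf.2.1, hf.2.2.1⟩
  have hf2M : ∀ f ∈ Fs, f.Coprime (2 * M) := by
    intro f hf
    obtain ⟨_, _, _, hc⟩ := hFsm f hf
    refine Nat.Coprime.mul_right (Nat.Coprime.coprime_dvd_right (two_dvd_Qz z) hc) ?_
    rw [Nat.coprime_iff_gcd_eq_one]
    by_contra hne
    obtain ⟨p, hp, hpd⟩ := Nat.exists_prime_and_dvd hne
    have hpf := hpd.trans (Nat.gcd_dvd_left _ _)
    have hpw := hpd.trans (Nat.gcd_dvd_right _ _)
    exact hp.one_lt.ne' (Nat.dvd_one.1 (hc ▸ Nat.dvd_gcd hpf (hMp p hp hpw)))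
  set Tf : ℕ → ℕ → ℝ := fun f v => ∑ s ∈ SA a X, ∑ t' ∈ SA a X,
        (rhoQ z r (prodS s * prodS t') v : ℝ) *
        ((jacobiSym ((prodS s * prodS t' : ℕ) : ℤ) f : ℤ) : ℝ) *
        fej (l * (Real.log (prodS s * prodS t' : ℕ) - t)) with hTf
  set G : ℕ → ℝ := fun f => ∑ v ∈ Vs, F v * (|kap X ρ f v| * |Tf f v|) with hG
  have hexpand : ∑ v ∈ Vs, Tm v ≤ ∑ f ∈ Fs, G f := by
    have hone : ∀ v ∈ Vs, Tm v ≤ ∑ f ∈ Fs, F v * (|kap X ρ f v| * |Tf f v|) := by
      intro v hv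
      rw [hVs, Finset.mem_filter, Finset.mem_Icc] at hv
      obtain ⟨⟨hv1, hvV⟩, _⟩ := hv
      have hvX : (v : ℝ) * (X : ℝ) ^ (cc a) ≤ X := by
        have hX0 : (0 : ℝ) < X := by exact_mod_cast (by omega : 0 < X)
        have h5 : (v : ℝ) ≤ (X : ℝ) ^ (1 - cc a) := le_trans (by exact_mod_cast hvV) hV
        calc (v : ℝ) * (X : ℝ) ^ (cc a) ≤ (X : ℝ) ^ (1 - cc a) * (X : ℝ) ^ (cc a) := by gcongr
          _ = X := by rw [← Real.rpow_add hX0]; simp
      have hJ : ∀ s t' : Finset ℕ, JJ z X ρ ∅ (prodS s * prodS t') v =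
          ∑ f ∈ Fs, ((jacobiSym ((prodS s * prodS t' : ℕ) : ℤ) f : ℤ) : ℝ) * kap X ρ f v := by
        intro s t'
        rw [hJX z X (PA a X) (cc a) C0 ρ ∅ (prodS s * prodS t') v hρ (Finset.empty_subset _) hPA
          hv1 hvX]
        simp [tau, hFs]
      have hexp : ∑ s ∈ SA a X, ∑ t' ∈ SA a X, (rhoQ z r (prodS s * prodS t') v : ℝ) *
        JJ z X ρ ∅ (prodS s * prodS t') v *
        fej (l * (Real.log (prodS s * prodS t' : ℕ) - t)) =
        ∑ f ∈ Fs, kap X ρ f v * Tf f v := by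
        have e1 : ∀ s ∈ SA a X, ∑ t' ∈ SA a X, (rhoQ z r (prodS s * prodS t') v : ℝ) *
            JJ z X ρ ∅ (prodS s * prodS t') v *
            fej (l * (Real.log (prodS s * prodS t' : ℕ) - t)) =
            ∑ f ∈ Fs, ∑ t' ∈ SA a X, kap X ρ f v * ((rhoQ z r (prodS s * prodS t') v : ℝ) *
            ((jacobiSym ((prodS s * prodS t' : ℕ) : ℤ) f : ℤ) : ℝ) *
            fej (l * (Real.log (prodS s * prodS t' : ℕ) - t))) := by
          intro s _
          rw [Finset.sum_comm]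
          refine Finset.sum_congr rfl fun t' _ => ?_
          rw [hJ, Finset.mul_sum, Finset.sum_mul]
          exact Finset.sum_congr rfl fun f _ => by ring
        rw [Finset.sum_congr rfl e1, Finset.sum_comm]
        refine Finset.sum_congr rfl fun f _ => ?_
        rw [hTf, Finset.mul_sum]
        exact Finset.sum_congr rfl fun s _ => by rw [Finset.mul_sum]
      rw [hTm]
      simp only
      rw [hexp, Finset.mul_sum]
      refine Finset.sum_le_sum fun f _ => mul_le_mul_of_nonneg_left ?_ (hF0 _)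
      rw [← abs_mul]
      exact le_abs_self _
    refine (Finset.sum_le_sum hone).trans (le_of_eq ?_)
    rw [Finset.sum_comm]
  -- bounds for one `f`
  have hjac : ∀ (x : ℤ) (f : ℕ), |((jacobiSym x f : ℤ) : ℝ)| ≤ 1 := by
    intro x f
    rcases jacobiSym.trichotomy x f with h | h | h <;> rw [h] <;> simp
  have hTabs : ∀ f v, |Tf f v| ≤ ∑ s ∈ SA a X, ∑ t' ∈ SA a X,
      (rhoQ z r (prodS s * prodS t') v : ℝ) *
        fej (l * (Real.log (prodS s * prodS t' : ℕ) - t)) := by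
    intro f v
    rw [hTf]
    refine (Finset.abs_sum_le_sum_abs _ _).trans (Finset.sum_le_sum fun s _ => ?_)
    refine (Finset.abs_sum_le_sum_abs _ _).trans (Finset.sum_le_sum fun t' _ => ?_)
    rw [abs_mul, abs_mul, abs_of_nonneg (hfej _), abs_of_nonneg (Nat.cast_nonneg _)]
    refine mul_le_mul_of_nonneg_right ?_ (hfej _)
    exact mul_le_of_le_one_right (Nat.cast_nonneg _) (hjac _ _)
  have hGA : ∀ f ∈ Fs, f ≤ max F0 1 → G f ≤
      ((C0 + 1 : ℝ) ^ f.primeFactors.card / f) *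
        (GG X ρ * ((Cq * F 0 + I) * SAN a z r X l t)) := by
    intro f hf hfF
    obtain ⟨hf1, _, hfs, hfc⟩ := hFsm f hf
    have h5 : G f ≤ ∑ v ∈ Vs, ∑ s ∈ SA a X, ∑ t' ∈ SA a X,
        (F v * |kap X ρ f v| * hh z r e (prodS s * prodS t') v) *
          fej (l * (Real.log (prodS s * prodS t' : ℕ) - t)) := by
      rw [hG]
      refine Finset.sum_le_sum fun v hv => ?_
      rw [hVs, Finset.mem_filter] at hv
      rw [← mul_assoc]
      refine (mul_le_mul_of_nonneg_left (hTabs f v)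
        (mul_nonneg (hF0 _) (abs_nonneg _))).trans (le_of_eq ?_)
      rw [Finset.mul_sum]
      refine Finset.sum_congr rfl fun s _ => ?_
      rw [Finset.mul_sum]
      refine Finset.sum_congr rfl fun t' _ => ?_
      unfold hh
      rw [if_pos hv.2]
      ring
    refine h5.trans ?_
    rw [Finset.sum_comm]
    have h6 : ∀ s ∈ SA a X, ∑ v ∈ Vs, ∑ t' ∈ SA a X,
        (F v * |kap X ρ f v| * hh z r e (prodS s * prodS t') v) *
          fej (l * (Real.log (prodS s * prodS t' : ℕ) - t)) ≤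
        ∑ t' ∈ SA a X, (GG X ρ * ((C0 + 1 : ℝ) ^ f.primeFactors.card / f) *
          AN z r (prodS s * prodS t') * (Cq * F 0 + I)) *
          fej (l * (Real.log (prodS s * prodS t' : ℕ) - t)) := by
      intro s hs
      rw [Finset.sum_comm]
      refine Finset.sum_le_sum fun t' ht' => ?_
      rw [← Finset.sum_mul]
      refine mul_le_mul_of_nonneg_right ?_ (hfej _)
      refine (Finset.sum_le_sum_of_subset_of_nonneg (Finset.filter_subset _ _) fun v _ _ => ?_).trans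
        (hCq X V f (prodS s * prodS t') (PA a X) (cc a) C0 ρ F I hρ hC0 hf1 hfF hfs hfc
          (hcop s hs t' ht') hF hF0 hI)
      refine mul_nonneg (mul_nonneg (hF0 _) (abs_nonneg _)) ?_
      unfold hh
      split_ifs
      · exact Nat.cast_nonneg _
      · exact le_rfl
    refine (Finset.sum_le_sum h6).trans (le_of_eq ?_)
    unfold SAN
    simp only [Finset.mul_sum]
    exact Finset.sum_congr rfl fun s _ => Finset.sum_congr rfl fun t' _ => by ring
  have hKBs : ∀ f ∈ Fs, ∑ v ∈ Vs, F v * |kap X ρ f v| ≤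
      ((2 * C0 : ℕ) : ℝ) ^ f.primeFactors.card / f * (GG X ρ * I) := by
    intro f hf
    obtain ⟨hf1, _, hfs, _⟩ := hFsm f hf
    have h6 := hKB z X V f 1 (PA a X) (cc a) C0 ρ ∅ F I hρ hC0 le_rfl hf1 hfs
      (Nat.coprime_one_left f) (by simp) hF hF0 hI
    have h7 : ∑ v ∈ Vs, F v * |kap X ρ f v| ≤
        ∑ v ∈ (Finset.Icc 1 V).filter (fun v => 1 ∣ v), F v * (tau ∅ v * |kap X ρ f v|) := by
      have e1 : ∑ v ∈ (Finset.Icc 1 V).filter (fun v => 1 ∣ v), F v * (tau ∅ v * |kap X ρ f v|) =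
          ∑ v ∈ (Finset.Icc 1 V).filter (fun v => 1 ∣ v), F v * |kap X ρ f v| :=
        Finset.sum_congr rfl fun v _ => by simp [tau]
      rw [e1]
      refine Finset.sum_le_sum_of_subset_of_nonneg ?_ fun v _ _ =>
        mul_nonneg (hF0 _) (abs_nonneg _)
      intro v hv
      rw [hVs, Finset.mem_filter] at hv
      rw [Finset.mem_filter]
      exact ⟨hv.1, one_dvd _⟩
    refine h7.trans (h6.trans (le_of_eq ?_))
    push_cast
    simp
    ring
  have hGB : ∀ f ∈ Fs, G f ≤ ((2 * C0 : ℕ) : ℝ) ^ f.primeFactors.card / f *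
      (K * (GG X ρ * I * S)) := by
    intro f hf
    have h5 : ∀ v ∈ Vs, |Tf f v| ≤ K * S := by
      intro v hv
      rw [hVs, Finset.mem_filter, Finset.mem_Icc] at hv
      refine (hTabs f v).trans ?_
      rw [hS', Finset.mul_sum]
      refine Finset.sum_le_sum fun s hs => ?_
      rw [Finset.mul_sum]
      refine Finset.sum_le_sum fun t' ht' => mul_le_mul_of_nonneg_right ?_ (hfej _)
      have := hB3 z r (prodS s * prodS t') v hv.1.1 (hcop s hs t' ht')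
      rw [hK]
      exact_mod_cast this
    have h6 : G f ≤ ∑ v ∈ Vs, F v * |kap X ρ f v| * (K * S) := by
      rw [hG]
      refine Finset.sum_le_sum fun v hv => ?_
      rw [← mul_assoc]
      exact mul_le_mul_of_nonneg_left (h5 v hv) (mul_nonneg (hF0 _) (abs_nonneg _))
    rw [← Finset.sum_mul] at h6
    refine h6.trans ((mul_le_mul_of_nonneg_right (hKBs f hf) (mul_nonneg hKpos.le hSF)).trans
      (le_of_eq ?_))
    ring
  have hGC : ∀ f ∈ Fs, f ≠ 1 → ¬ BadF (1 / 2) M (yA a X) f → G f ≤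
      ((2 * C0 : ℕ) : ℝ) ^ f.primeFactors.card / f *
      (ε / 3 * (GG X ρ * I * N2) / (1 + Real.log X) ^ (2 * C0)) := by
    intro f hf hf1 hbad
    obtain ⟨_, _, hfs, _⟩ := hFsm f hf
    have hL : (0 : ℝ) < (1 + Real.log X) ^ (2 * C0) := by positivity
    have h5 : ∀ v ∈ Vs, |Tf f v| ≤ ε / 3 * N2 / (1 + Real.log X) ^ (2 * C0) := by
      intro v hv
      rw [hVs, Finset.mem_filter, Finset.mem_Icc] at hv
      obtain ⟨⟨hv1, _⟩, hvc⟩ := hv
      have hqW : qpart z v ∣ W := qpart_dvd_W hv1 hvc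
      obtain ⟨b, hb0, hb, hbb⟩ := hXE (qpart z v) (TAh.qpart_pos z v) X
        (hX5 _ (Nat.mem_divisors.2 ⟨hqW, hW0.ne'⟩)) hX4
      have h6 := good_f (t := t) hFS hTD hfej hz hr hl hPA hv1
        (Nat.mul_dvd_mul_left (Qz z) (pow_dvd_pow_of_dvd hqW 2)) hMp hf1 hfs (hf2M f hf) hbad
        hb0 hbb
      rw [le_div_iff₀ hL]
      exact (mul_le_mul_of_nonneg_right h6 hL.le).trans hb
    have h6 : G f ≤ ∑ v ∈ Vs, F v * |kap X ρ f v| *
        (ε / 3 * N2 / (1 + Real.log X) ^ (2 * C0)) := by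
      rw [hG]
      refine Finset.sum_le_sum fun v hv => ?_
      rw [← mul_assoc]
      exact mul_le_mul_of_nonneg_left (h5 v hv) (mul_nonneg (hF0 _) (abs_nonneg _))
    rw [← Finset.sum_mul] at h6
    refine h6.trans ((mul_le_mul_of_nonneg_right (hKBs f hf) (by positivity)).trans
      (le_of_eq ?_))
    ring
  have hG0 : ∀ f, 0 ≤ G f := fun f =>
    Finset.sum_nonneg fun v _ => mul_nonneg (hF0 _) (mul_nonneg (abs_nonneg _) (abs_nonneg _))
  obtain ⟨hcard, hsumB⟩ := h2 X hX2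
  -- the three classes of `f`
  set D : ℝ := GG X ρ * ((Cq * F 0 + I) * SAN a z r X l t) with hD
  have hD0 : 0 ≤ D := mul_nonneg hGG.le (mul_nonneg
    (add_nonneg (mul_nonneg hCq0 (hF0 0)) hI0) hSAN)
  set Bc : ℝ := K * (GG X ρ * I * S) with hBc
  have hBc0 : 0 ≤ Bc := by positivity
  set Cc : ℝ := ε / 3 * (GG X ρ * I * N2) / (1 + Real.log X) ^ (2 * C0) with hCc
  have hL : (0 : ℝ) < (1 + Real.log X) ^ (2 * C0) := by positivity
  have hCc0 : 0 ≤ Cc := by positivity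
  set cf : ℕ → ℝ := fun f => ((2 * C0 : ℕ) : ℝ) ^ f.primeFactors.card / f with hcf
  have hcf0 : ∀ f, 0 ≤ cf f := fun f => by rw [hcf]; positivity
  have hpt : ∀ f ∈ Fs, G f ≤ ((if f = 1 then D else 0) +
      (if f ≠ 1 ∧ f ≤ F0 ∧ BadF (1 / 2) M (yA a X) f then (C0 + 1) / z * D else 0)) +
      ((if F0 < f ∧ BadF (1 / 2) M (yA a X) f then cf f * Bc else 0) + cf f * Cc) := by
    intro f hf
    obtain ⟨_, _, hfs, hfc⟩ := hFsm f hf
    have n1 : 0 ≤ (if f = 1 then D else 0) := by split_ifs <;> first | exact hD0 | exact le_rfl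
    have n2 : 0 ≤ (if f ≠ 1 ∧ f ≤ F0 ∧ BadF (1 / 2) M (yA a X) f then (C0 + 1) / z * D else 0) := by
      split_ifs
      · positivity
      · exact le_rfl
    have n3 : 0 ≤ (if F0 < f ∧ BadF (1 / 2) M (yA a X) f then cf f * Bc else 0) := by
      split_ifs
      · exact mul_nonneg (hcf0 f) hBc0
      · exact le_rfl
    have n4 : 0 ≤ cf f * Cc := mul_nonneg (hcf0 f) hCc0
    by_cases c1 : f = 1
    · have h5 := hGA f hf (c1 ▸ le_max_right _ _)
      rw [if_pos c1]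
      have h6 : ((C0 + 1 : ℝ) ^ f.primeFactors.card / f) = 1 := by
        rw [c1]; simp
      rw [h6, one_mul] at h5
      linarith
    · by_cases c3 : BadF (1 / 2) M (yA a X) f
      · by_cases c2 : f ≤ F0
        · have h5 := hGA f hf (c2.trans (le_max_left _ _))
          have h6 : ((C0 + 1 : ℝ) ^ f.primeFactors.card / f) * D ≤ (C0 + 1) / z * D :=
            mul_le_mul_of_nonneg_right (om_le hz hzC c1 hfs hfc) hD0
          rw [if_pos (show f ≠ 1 ∧ f ≤ F0 ∧ BadF (1 / 2) M (yA a X) f from ⟨c1, c2, c3⟩)]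
          linarith
        · have h5 := hGB f hf
          rw [if_pos (show F0 < f ∧ BadF (1 / 2) M (yA a X) f from ⟨not_le.1 c2, c3⟩)]
          have h6 : G f ≤ cf f * Bc := h5
          linarith
      · have h5 : G f ≤ cf f * Cc := hGC f hf c1 c3
        linarith
  have hsum1 : ∑ f ∈ Fs, (if f = 1 then D else 0) ≤ D := by
    rw [Finset.sum_ite_eq' Fs 1 (fun _ => D)]
    split_ifs
    · exact le_rfl
    · exact hD0
  have hsum2 : ∑ f ∈ Fs, (if f ≠ 1 ∧ f ≤ F0 ∧ BadF (1 / 2) M (yA a X) f then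
      (C0 + 1) / z * D else 0) ≤ ε1 * D := by
    rw [← Finset.sum_filter, Finset.sum_const, nsmul_eq_mul]
    have h5 : (Fs.filter (fun f => f ≠ 1 ∧ f ≤ F0 ∧ BadF (1 / 2) M (yA a X) f)).card ≤ K0 := by
      refine (Finset.card_le_card ?_).trans hcard
      intro f hf
      rw [Finset.mem_filter] at hf
      obtain ⟨hf1, _, hfs, _⟩ := hFsm f hf.1
      rw [Finset.mem_filter, Finset.mem_Icc]
      exact ⟨⟨hf1, hf.2.2.1⟩, hfs, hf2M f hf.1, hf.2.2.2⟩
    have h6 : ((Fs.filter (fun f => f ≠ 1 ∧ f ≤ F0 ∧ BadF (1 / 2) M (yA a X) f)).card : ℝ) ≤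
        K0 := by exact_mod_cast h5
    calc _ ≤ (K0 : ℝ) * ((C0 + 1) / z * D) := mul_le_mul_of_nonneg_right h6 (by positivity)
      _ = (K0 : ℝ) * ((C0 + 1) / z) * D := by ring
      _ ≤ ε1 * D := mul_le_mul_of_nonneg_right hKz hD0
  have hsum3 : ∑ f ∈ Fs, (if F0 < f ∧ BadF (1 / 2) M (yA a X) f then cf f * Bc else 0) ≤
      ε / 3 * (GG X ρ * I * S) := by
    rw [← Finset.sum_filter, ← Finset.sum_mul]
    have h5 : ∑ f ∈ Fs.filter (fun f => F0 < f ∧ BadF (1 / 2) M (yA a X) f), cf f ≤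
        ε / 3 / K := by
      refine le_trans (Finset.sum_le_sum_of_subset_of_nonneg ?_ fun f _ _ => hcf0 f) hsumB
      intro f hf
      rw [Finset.mem_filter] at hf
      obtain ⟨hf1, hfX, hfs, _⟩ := hFsm f hf.1
      rw [Finset.mem_filter, Finset.mem_Icc]
      exact ⟨⟨hf1, hfX⟩, hf.2.1, hfs, hf2M f hf.1, hf.2.2⟩
    refine (mul_le_mul_of_nonneg_right h5 hBc0).trans (le_of_eq ?_)
    rw [hBc]
    field_simp
  have hsum4 : ∑ f ∈ Fs, cf f * Cc ≤ ε / 3 * (GG X ρ * I * N2) := by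
    rw [← Finset.sum_mul]
    have h5 : ∑ f ∈ Fs, cf f ≤ (1 + Real.log X) ^ (2 * C0) := by
      refine le_trans (Finset.sum_le_sum_of_subset_of_nonneg ?_ fun f _ _ => hcf0 f)
        (hHS (2 * C0) X (by omega))
      intro f hf
      obtain ⟨hf1, hfX, hfs, _⟩ := hFsm f hf
      rw [Finset.mem_filter, Finset.mem_Icc]
      exact ⟨⟨hf1, hfX⟩, hfs⟩
    refine (mul_le_mul_of_nonneg_right h5 hCc0).trans (le_of_eq ?_)
    rw [hCc]
    field_simp
  have htot : ∑ f ∈ Fs, G f ≤ (D + ε1 * D) +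
      (ε / 3 * (GG X ρ * I * S) + ε / 3 * (GG X ρ * I * N2)) := by
    refine (Finset.sum_le_sum hpt).trans ?_
    rw [Finset.sum_add_distrib, Finset.sum_add_distrib, Finset.sum_add_distrib]
    exact add_le_add (add_le_add hsum1 hsum2) (add_le_add hsum3 hsum4)
  have hsplit : ∑ v ∈ Finset.Icc 1 V, Tm v =
      ∑ v ∈ Vs, Tm v + ∑ v ∈ (Finset.Icc 1 V).filter (fun v => ¬ cond v), Tm v :=
    (Finset.sum_filter_add_sum_filter_not _ _ _).symm
  change ∑ v ∈ Finset.Icc 1 V, Tm v ≤ _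
  rw [hsplit]
  have hlast : 0 ≤ ε / 3 * (GG X ρ * I * (S + N2)) := by positivity
  calc ∑ v ∈ Vs, Tm v + ∑ v ∈ (Finset.Icc 1 V).filter (fun v => ¬ cond v), Tm v
      ≤ ((D + ε1 * D) + (ε / 3 * (GG X ρ * I * S) + ε / 3 * (GG X ρ * I * N2))) +
        GG X ρ * (ε / 3 * I * (S + N2)) := add_le_add (hexpand.trans htot) hpart1
    _ ≤ ((D + ε1 * D) + (ε / 3 * (GG X ρ * I * S) + ε / 3 * (GG X ρ * I * N2))) +
        GG X ρ * (ε / 3 * I * (S + N2)) + ε / 3 * (GG X ρ * I * (S + N2)) := by linarith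
    _ = GG X ρ * ((1 + ε1) * (Cq * F 0 + I) * SAN a z r X l t + ε * I * (S + N2)) := by
        rw [hD]; ring

end Pool.Agent.N71.PS.TA
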